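import Pool.Agent.Lib.P548a.Pos
import Pool.Agent.Lib.P548a.Count

/-!
# Oracles which code the truth of bounded formulas
-/

set_option autoImplicit false

namespace Pool.Agent.Lib.P28o

open Pool.Agent.Lib.P548a

variable {ι : Type}

/-- The code of a tuple of numbers. -/
def tn : {n : ℕ} → (Fin n → ℕ) → ℕ
  | 0, _ => 0
  | _ + 1, v => pr (v 0) (tn (fun i => v i.succ))

theorem tn_inj : ∀ {n : ℕ} (v w : Fin n → ℕ), tn v = tn w → v = w
  | 0, v, w, _ => by funext i; exact i.elim0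
  | n + 1, v, w, h => by
      have h1 : pr (v 0) (tn (fun i => v i.succ)) = pr (w 0) (tn (fun i => w i.succ)) := h
      have h2 := pr_inj h1
      have h3 := tn_inj _ _ h2.2
      funext i
      refine Fin.cases ?_ ?_ i
      · exact h2.1
      · intro j
        exact congrFun h3 j

theorem le_pr_left (a b : ℕ) : a ≤ pr a b := Nat.le_add_left _ _

theorem le_tn : ∀ {n : ℕ} (v : Fin n → ℕ) (i : Fin n), v i ≤ tn v
  | 0, _, i => i.elim0
  | n + 1, v, i => by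
      show v i ≤ pr (v 0) (tn (fun i => v i.succ))
      revert i
      intro i
      refine Fin.cases ?_ ?_ i
      · exact le_pr_left _ _
      · intro j
        exact (le_tn (fun i => v i.succ) j).trans (le_pr _ _)

/-- The term for the code of a tuple of terms. -/
def tupT {α : Type} : {n : ℕ} → (Fin n → Tm ι α) → Tm ι α
  | 0, _ => Tm.zero
  | _ + 1, v => pairT (v 0) (tupT (fun i => v i.succ))

theorem tupT_eval_N (F : ι → ℕ → ℕ) (A : ℕ → Bool) {α : Type} (w : α → ℕ) : ∀ {n : ℕ} (v : Fin n → Tm ι α),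
    (tupT v).eval (NStr F A) w = tn (fun i => (v i).eval (NStr F A) w)
  | 0, _ => rfl
  | n + 1, v => by
      show (pairT (v 0) (tupT (fun i => v i.succ))).eval (NStr F A) w = pr _ (tn _)
      rw [pairT_eval, tupT_eval_N F A w (fun i => v i.succ)]
      rfl

/-- The stages of a recursively defined oracle. -/
noncomputable def stg (P : (ℕ → Bool) → ℕ → Prop) : ℕ → (ℕ → Bool)
  | 0 => fun _ => false
  | m + 1 => Function.update (stg P m) m (@decide (P (stg P m) m) (Classical.dec _))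

/-- The oracle defined by recursion. -/
noncomputable def fx (P : (ℕ → Bool) → ℕ → Prop) : ℕ → Bool := fun m => stg P (m + 1) m

theorem stg_eq (P : (ℕ → Bool) → ℕ → Prop) (m i : ℕ) (h : i < m) : stg P m i = fx P i := by
  induction m, h using Nat.le_induction with
  | base => rfl
  | succ m hm ih => rw [stg, Function.update_of_ne (by omega), ih]

theorem fx_iff (P : (ℕ → Bool) → ℕ → Prop)
    (hP : ∀ (m : ℕ) (A B : ℕ → Bool), (∀ i < m, A i = B i) → (P A m ↔ P B m)) (m : ℕ) :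
    fx P m = true ↔ P (fx P) m := by
  unfold fx
  rw [stg, Function.update_self]
  have h1 : P (stg P m) m ↔ P (fx P) m := hP m _ _ (fun i hi => stg_eq P m i hi)
  rw [show (@decide (P (stg P m) m) (Classical.dec _) = true) ↔ P (stg P m) m from
    @decide_eq_true_iff _ (Classical.dec _), h1]
  rfl

/-- The oracle `O` codes the truth of the bounded formulas at the even places given by `loc` and has the values of `X` at the odd
places. -/
def Coded (F : ι → ℕ → ℕ) (c : (Σ n, Fm ι n) → ℕ) (loc : (Σ n, Fm ι n) → ℕ → ℕ) (X : ℕ → Bool) (O : ℕ → Bool) (m : ℕ) : Prop :=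
  (∃ (n : ℕ) (φ : Fm ι n) (v : Fin n → ℕ), φ.Bounded ∧
    m = pr (pr (c ⟨n, φ⟩) (tn v)) (loc ⟨n, φ⟩ (tn v)) + pr (pr (c ⟨n, φ⟩) (tn v)) (loc ⟨n, φ⟩ (tn v)) ∧
    φ.sat (NStr F O) v) ∨ (∃ i : ℕ, m = i + i + 1 ∧ X i = true)

/-- `T φ` bounds the places about which `φ` asks. -/
def Maj (F : ι → ℕ → ℕ) (T : (Σ n, Fm ι n) → ℕ → ℕ) : Prop :=
  ∀ (n : ℕ) (φ : Fm ι n), φ.Bounded → ∀ (v : Fin n → ℕ) (A B : ℕ → Bool), (∀ i < T ⟨n, φ⟩ (tn v), A i = B i) →
    (φ.sat (NStr F A) v ↔ φ.sat (NStr F B) v)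

theorem coded_local (F : ι → ℕ → ℕ) (c : (Σ n, Fm ι n) → ℕ) (loc T : (Σ n, Fm ι n) → ℕ → ℕ) (hT : Maj F T)
    (hl : ∀ p s, T p s ≤ loc p s) (X : ℕ → Bool) (m : ℕ) (A B : ℕ → Bool) (h : ∀ i < m, A i = B i) :
    Coded F c loc X A m ↔ Coded F c loc X B m := by
  unfold Coded
  refine or_congr ?_ Iff.rfl
  refine exists_congr (fun n => exists_congr (fun φ => exists_congr (fun v => and_congr_right (fun hb =>
    and_congr_right (fun hm => ?_)))))
  refine hT n φ hb v A B (fun i hi => h i ?_)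
  rw [hm]
  exact lt_of_lt_of_le hi (((hl _ _).trans (le_pr _ _)).trans (Nat.le_add_left _ _))

/-- The oracle with free part `X`. -/
noncomputable def orcl (F : ι → ℕ → ℕ) (c : (Σ n, Fm ι n) → ℕ) (loc : (Σ n, Fm ι n) → ℕ → ℕ) (X : ℕ → Bool) : ℕ → Bool :=
  fx (Coded F c loc X)

theorem orcl_iff (F : ι → ℕ → ℕ) (c : (Σ n, Fm ι n) → ℕ) (loc T : (Σ n, Fm ι n) → ℕ → ℕ) (hT : Maj F T)
    (hl : ∀ p s, T p s ≤ loc p s) (X : ℕ → Bool) (m : ℕ) :
    orcl F c loc X m = true ↔ Coded F c loc X (orcl F c loc X) m :=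
  fx_iff _ (coded_local F c loc T hT hl X) m

/-- There are terms which bound the queries. -/
theorem exists_maj (F : ι → ℕ → ℕ) (hm : ∀ i, Monotone (F i)) :
    ∃ t : (Σ n, Fm ι n) → Tm ι Unit, Maj F (fun p s => val F (t p) s) := by
  have hex : ∀ p : (Σ n, Fm ι n), ∃ t : Tm ι Unit, p.2.Bounded → ∀ (v : Fin p.1 → ℕ) (A B : ℕ → Bool),
      (∀ i < val F t (tn v), A i = B i) → (p.2.sat (NStr F A) v ↔ p.2.sat (NStr F B) v) := by
    rintro ⟨n, φ⟩
    by_cases hφ : φ.Bounded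
    · obtain ⟨t, ht⟩ := majorant F hm φ hφ (fun _ => Tm.var ())
      refine ⟨t, fun _ v A B hAB => ht (tn v) v ?_ A B hAB⟩
      intro i
      exact le_tn v i
    · exact ⟨Tm.zero, fun h => absurd h hφ⟩
  choose t ht using hex
  exact ⟨t, fun n φ hφ v A B h => ht ⟨n, φ⟩ hφ v A B h⟩

/-- An injective code of the formulas. -/
theorem exists_code (ι : Type) [Countable ι] : ∃ c : (Σ n, Fm ι n) → ℕ, Function.Injective c := by
  have h : ∀ n, Countable (Fm ι n) := fun n => countable_fm ι n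
  exact exists_injective_nat (Σ n, Fm ι n)

/-- At a coded place the oracle tells the truth. -/
theorem truth (F : ι → ℕ → ℕ) (c : (Σ n, Fm ι n) → ℕ) (hc : Function.Injective c)
    (loc T : (Σ n, Fm ι n) → ℕ → ℕ) (hT : Maj F T) (hl : ∀ p s, T p s ≤ loc p s) (X : ℕ → Bool) {n : ℕ} (φ : Fm ι n)
    (v : Fin n → ℕ) (z : ℕ) (h : orcl F c loc X (pr (pr (c ⟨n, φ⟩) (tn v)) z + pr (pr (c ⟨n, φ⟩) (tn v)) z) = true) :
    φ.sat (NStr F (orcl F c loc X)) v := by
  rw [orcl_iff F c loc T hT hl X] at h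
  rcases h with ⟨n', φ', v', hb, h1, h2⟩ | ⟨i, h1, _⟩
  · have h0 : pr (pr (c ⟨n, φ⟩) (tn v)) z = pr (pr (c ⟨n', φ'⟩) (tn v')) (loc ⟨n', φ'⟩ (tn v')) := by omega
    have h3 := pr_inj (pr_inj h0).1
    have h4 := hc h3.1
    injection h4 with h5 h6
    subst h5
    have h7 := eq_of_heq h6
    subst h7
    have h8 := tn_inj _ _ h3.2
    subst h8
    exact h2
  · exfalso
    omega

theorem truth' (F : ι → ℕ → ℕ) (c : (Σ n, Fm ι n) → ℕ) (loc T : (Σ n, Fm ι n) → ℕ → ℕ) (hT : Maj F T)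
    (hl : ∀ p s, T p s ≤ loc p s) (X : ℕ → Bool) {n : ℕ} (φ : Fm ι n) (hφ : φ.Bounded) (v : Fin n → ℕ)
    (h : φ.sat (NStr F (orcl F c loc X)) v) :
    orcl F c loc X (pr (pr (c ⟨n, φ⟩) (tn v)) (loc ⟨n, φ⟩ (tn v)) + pr (pr (c ⟨n, φ⟩) (tn v)) (loc ⟨n, φ⟩ (tn v))) = true := by
  rw [orcl_iff F c loc T hT hl X]
  exact Or.inl ⟨n, φ, v, hφ, rfl, h⟩

theorem orcl_odd (F : ι → ℕ → ℕ) (c : (Σ n, Fm ι n) → ℕ) (loc T : (Σ n, Fm ι n) → ℕ → ℕ) (hT : Maj F T)
    (hl : ∀ p s, T p s ≤ loc p s) (X : ℕ → Bool) (i : ℕ) : orcl F c loc X (i + i + 1) = X i := by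
  rw [Bool.eq_iff_iff, orcl_iff F c loc T hT hl X]
  constructor
  · rintro (⟨n, φ, v, _, h1, _⟩ | ⟨j, h1, h2⟩)
    · exfalso
      omega
    · have : i = j := by omega
      rw [this]
      exact h2
  · intro h
    exact Or.inr ⟨i, rfl, h⟩

end Pool.Agent.Lib.P28o
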