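import Pool.Agent.Lib.P548a.Pos
import Pool.Agent.Lib.P548a.Game
import Pool.Agent.Lib.P548a.Sip
import Pool.Agent.Lib.P548a.Block

/-!
# Bounded formulas as x-bounded formulas; the odd places
-/

set_option autoImplicit false

namespace Pool.Agent.Lib.P28o

open Pool.Agent.Lib.P548a

variable {ι : Type}

/-- A term in the last variable. -/
def lastT : (n : ℕ) → Tm ι Unit → Tm ι (Fin n)
  | 0, _ => Tm.zero
  | n + 1, t => t.map (fun _ => Fin.last n)

/-- The bounds of the quantifiers are replaced by terms in the last variable. -/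
def xbf : {n : ℕ} → Fm ι n → (Fin n → Tm ι Unit) → Fm ι n
  | _, .lt s t, _ => .lt s t
  | _, .eq s t, _ => .eq s t
  | _, .rel t, _ => .rel t
  | _, .not φ, T => .not (xbf φ T)
  | _, .and φ ψ, T => .and (xbf φ T) (xbf ψ T)
  | _, .ex φ, _ => .ex φ
  | n, .exB t φ, T => .exB (lastT n (t.subst T)) (.and (.lt (.var 0) (t.map Fin.succ)) (xbf φ (Fin.cons (t.subst T) T)))

theorem xbf_xb : ∀ {n : ℕ} (φ : Fm ι n), 0 < n → φ.Bounded → ∀ T : Fin n → Tm ι Unit, (xbf φ T).XB
  | _, .lt _ _, _, _, _ => trivial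
  | _, .eq _ _, _, _, _ => trivial
  | _, .rel _, _, _, _ => trivial
  | _, .not φ, hn, h, T => xbf_xb φ hn h T
  | _, .and φ ψ, hn, h, T => ⟨xbf_xb φ hn h.1 T, xbf_xb ψ hn h.2 T⟩
  | _, .ex _, _, h, _ => h.elim
  | 0, .exB _ _, hn, _, _ => absurd hn (lt_irrefl 0)
  | n + 1, .exB t φ, _, h, T => ⟨last_map _ n, trivial, xbf_xb φ (Nat.succ_pos _) h _⟩

theorem xbf_rk : ∀ {n : ℕ} (φ : Fm ι n) (T : Fin n → Tm ι Unit), (xbf φ T).rk = φ.rk
  | _, .lt _ _, _ => rfl
  | _, .eq _ _, _ => rfl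
  | _, .rel _, _ => rfl
  | _, .not φ, T => xbf_rk φ T
  | _, .and φ ψ, T => by
      show max (xbf φ T).rk (xbf ψ T).rk = max φ.rk ψ.rk
      rw [xbf_rk φ T, xbf_rk ψ T]
  | _, .ex _, _ => rfl
  | _, .exB t φ, T => by
      show max 0 (xbf φ _).rk + 1 = φ.rk + 1
      rw [xbf_rk φ _, Nat.zero_max]

theorem lastT_eval (F : ι → ℕ → ℕ) (A : ℕ → Bool) (t : Tm ι Unit) : ∀ (n : ℕ) (v : Fin n → ℕ) (x : ℕ), 0 < n →
    (∀ i : Fin n, i.val + 1 = n → v i = x) → (lastT n t).eval (NStr F A) v = val F t x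
  | 0, _, _, h, _ => absurd h (lt_irrefl 0)
  | n + 1, v, x, _, h => by
      show (t.map (fun _ => Fin.last n)).eval (NStr F A) v = val F t x
      rw [Tm.eval_map, h (Fin.last n) rfl]
      exact eval_indep F A (fun _ => false) t _

theorem xbf_sat (F : ι → ℕ → ℕ) (hm : ∀ i, Monotone (F i)) (A : ℕ → Bool) (x : ℕ) : ∀ {n : ℕ} (φ : Fm ι n), 0 < n →
    φ.Bounded → ∀ (T : Fin n → Tm ι Unit) (v : Fin n → ℕ), (∀ i : Fin n, i.val + 1 = n → v i = x) →
    (∀ i, v i ≤ val F (T i) x) → ((xbf φ T).sat (NStr F A) v ↔ φ.sat (NStr F A) v)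
  | _, .lt _ _, _, _, _, _, _, _ => Iff.rfl
  | _, .eq _ _, _, _, _, _, _, _ => Iff.rfl
  | _, .rel _, _, _, _, _, _, _ => Iff.rfl
  | _, .not φ, hn, h, T, v, h1, h2 => not_congr (xbf_sat F hm A x φ hn h T v h1 h2)
  | _, .and φ ψ, hn, h, T, v, h1, h2 =>
      and_congr (xbf_sat F hm A x φ hn h.1 T v h1 h2) (xbf_sat F hm A x ψ hn h.2 T v h1 h2)
  | _, .ex _, _, h, _, _, _, _ => h.elim
  | n, .exB t φ, hn, h, T, v, h1, h2 => by
      have h3 : t.eval (NStr F A) v ≤ val F (t.subst T) x := eval_maj F hm A T t x v h2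
      show (∃ y : ℕ, y < (lastT n (t.subst T)).eval (NStr F A) v ∧
          (y < (t.map Fin.succ).eval (NStr F A) (Fin.cons y v : Fin (n + 1) → ℕ) ∧
            (xbf φ (Fin.cons (t.subst T) T)).sat (NStr F A) (Fin.cons y v : Fin (n + 1) → ℕ))) ↔
        ∃ y : ℕ, y < t.eval (NStr F A) v ∧ φ.sat (NStr F A) (Fin.cons y v : Fin (n + 1) → ℕ)
      rw [lastT_eval F A _ n v x hn h1]
      refine exists_congr (fun y => ?_)
      have e : (t.map Fin.succ).eval (NStr F A) (Fin.cons y v : Fin (n + 1) → ℕ) = t.eval (NStr F A) v := by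
        rw [Tm.eval_map]
        rfl
      rw [e]
      constructor
      · rintro ⟨a, b, c⟩
        refine ⟨b, (xbf_sat F hm A x φ (Nat.succ_pos _) h _ _ ?_ ?_).1 c⟩
        · intro i hi
          revert hi
          refine Fin.cases ?_ ?_ i
          · intro hi
            have : n = 0 := by
              have := hi
              simp only [Fin.val_zero] at this
              omega
            omega
          · intro j hj
            exact h1 j (by simpa using hj)
        · intro i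
          refine Fin.cases ?_ ?_ i
          · exact a.le
          · intro j
            exact h2 j
      · rintro ⟨b, c⟩
        have a : y < val F (t.subst T) x := lt_of_lt_of_le b h3
        refine ⟨a, b, (xbf_sat F hm A x φ (Nat.succ_pos _) h _ _ ?_ ?_).2 c⟩
        · intro i hi
          revert hi
          refine Fin.cases ?_ ?_ i
          · intro hi
            have : n = 0 := by
              have := hi
              simp only [Fin.val_zero] at this
              omega
            omega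
          · intro j hj
            exact h1 j (by simpa using hj)
        · intro i
          refine Fin.cases ?_ ?_ i
          · exact a.le
          · intro j
            exact h2 j

/-- Every question `R (t)` is replaced by `R (2t + 1)`. -/
def oddF : {n : ℕ} → Fm ι n → Fm ι n
  | _, .lt s t => .lt s t
  | _, .eq s t => .eq s t
  | _, .rel t => .rel (Tm.add (Tm.add t t) Tm.one)
  | _, .not φ => .not (oddF φ)
  | _, .and φ ψ => .and (oddF φ) (oddF ψ)
  | _, .ex φ => .ex (oddF φ)
  | _, .exB t φ => .exB t (oddF φ)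

theorem oddF_bounded : ∀ {n : ℕ} (φ : Fm ι n), φ.Bounded → (oddF φ).Bounded
  | _, .lt _ _, _ => trivial
  | _, .eq _ _, _ => trivial
  | _, .rel _, _ => trivial
  | _, .not φ, h => oddF_bounded φ h
  | _, .and φ ψ, h => ⟨oddF_bounded φ h.1, oddF_bounded ψ h.2⟩
  | _, .ex _, h => h.elim
  | _, .exB _ φ, h => oddF_bounded φ h

theorem oddF_noFn : ∀ {n : ℕ} (φ : Fm ι n), φ.NoFn → (oddF φ).NoFn
  | _, .lt _ _, h => h
  | _, .eq _ _, h => h
  | _, .rel _, h => ⟨⟨h, h⟩, trivial⟩
  | _, .not φ, h => oddF_noFn φ h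
  | _, .and φ ψ, h => ⟨oddF_noFn φ h.1, oddF_noFn ψ h.2⟩
  | _, .ex φ, h => oddF_noFn φ h
  | _, .exB _ φ, h => ⟨h.1, oddF_noFn φ h.2⟩

theorem oddF_sat (F : ι → ℕ → ℕ) (A : ℕ → Bool) : ∀ {n : ℕ} (φ : Fm ι n) (v : Fin n → ℕ),
    ((oddF φ).sat (NStr F A) v ↔ φ.sat (NStr F (fun i => A (i + i + 1))) v)
  | _, .lt s t, v => by
      show s.eval (NStr F A) v < t.eval (NStr F A) v ↔ s.eval (NStr F (fun i => A (i + i + 1))) v < t.eval (NStr F (fun i => A (i + i + 1))) v
      rw [eval_indep F A (fun i => A (i + i + 1)) s, eval_indep F A (fun i => A (i + i + 1)) t]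
  | _, .eq s t, v => by
      show s.eval (NStr F A) v = t.eval (NStr F A) v ↔ s.eval (NStr F (fun i => A (i + i + 1))) v = t.eval (NStr F (fun i => A (i + i + 1))) v
      rw [eval_indep F A (fun i => A (i + i + 1)) s, eval_indep F A (fun i => A (i + i + 1)) t]
  | _, .rel t, v => by
      show A (t.eval (NStr F A) v + t.eval (NStr F A) v + 1) = true ↔
        A (t.eval (NStr F (fun i => A (i + i + 1))) v + t.eval (NStr F (fun i => A (i + i + 1))) v + 1) = true
      rw [eval_indep F A (fun i => A (i + i + 1)) t]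
  | _, .not φ, v => not_congr (oddF_sat F A φ v)
  | _, .and φ ψ, v => and_congr (oddF_sat F A φ v) (oddF_sat F A ψ v)
  | _, .ex φ, v => exists_congr (fun y => oddF_sat F A φ _)
  | n, .exB t φ, v => by
      show (∃ y : ℕ, y < t.eval (NStr F A) v ∧ (oddF φ).sat (NStr F A) (Fin.cons y v : Fin (n + 1) → ℕ)) ↔
        ∃ y : ℕ, y < t.eval (NStr F (fun i => A (i + i + 1))) v ∧
          φ.sat (NStr F (fun i => A (i + i + 1))) (Fin.cons y v : Fin (n + 1) → ℕ)
      rw [eval_indep F A (fun i => A (i + i + 1)) t]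
      exact exists_congr (fun y => and_congr_right (fun _ => oddF_sat F A φ _))

end Pool.Agent.Lib.P28o
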