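import Pool.Agent.Lib.P28o.PosW
import Pool.Agent.Lib.P28o.Xb
import Pool.Agent.Lib.P548a.Gen
import Pool.Agent.Lib.P548a.Growth

/-!
# The diagonal argument
-/

set_option autoImplicit false

namespace Pool.Agent.Lib.P28o

open Pool.Agent.Lib.P548a Pool.Agent.Lib.Pa76659

variable {ι : Type}

/-- The position decoding of the odd places. -/
noncomputable def decO (x k : ℕ) : ℕ → Option (List ℕ) := fun m => if m % 2 = 1 then decB x k (m / 2) else none

section

variable (F : ι → ℕ → ℕ) (hm : ∀ i, Monotone (F i)) (c : (Σ n, Fm ι n) → ℕ)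
  (t : (Σ n, Fm ι n) → Tm ι Unit) (hT : Maj F (fun p s => val F (t p) s))

/-- The oracle of world A with the free part `X`. -/
noncomputable def orA (X : ℕ → Bool) : ℕ → Bool := orcl F c (fun p s => 2 ^ val F (t p) s) X

include hT in
theorem orA_iff (X : ℕ → Bool) (m : ℕ) :
    orA F c t X m = true ↔ Coded F c (fun p s => 2 ^ val F (t p) s) X (orA F c t X) m :=
  orcl_iff F c _ _ hT (fun _ _ => Nat.lt_two_pow_self.le) X m

include hT in
theorem orA_odd (X : ℕ → Bool) (i : ℕ) : orA F c t X (i + i + 1) = X i :=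
  orcl_odd F c _ _ hT (fun _ _ => Nat.lt_two_pow_self.le) X i

include hT in
theorem orA_congr (X X' : ℕ → Bool) (K : ℕ) (h : ∀ i < K, X i = X' i) : ∀ i < K, orA F c t X i = orA F c t X' i := by
  intro i
  induction i using Nat.strong_induction_on with
  | _ i ih =>
    intro hi
    rw [Bool.eq_iff_iff, orA_iff F c t hT, orA_iff F c t hT]
    rw [coded_local F c (fun p s => 2 ^ val F (t p) s) _ hT (fun _ _ => Nat.lt_two_pow_self.le) X i _ (orA F c t X')
      (fun j hj => ih j hj (hj.trans hi))]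
    unfold Coded
    refine or_congr Iff.rfl (exists_congr (fun j => and_congr_right (fun hj => ?_)))
    rw [h j (by omega)]

include hT in
theorem orA_even (X X' : ℕ → Bool) (x K : ℕ) (hK : ∀ a, 2 ^ a < K → a ≤ x) (h : ∀ i < x, X i = X' i) (m : ℕ) (hmK : m < K)
    (he : m % 2 = 0) : orA F c t X m = orA F c t X' m := by
  have h0 : ∀ j < x, orA F c t X j = orA F c t X' j := orA_congr F c t hT X X' x h
  rw [Bool.eq_iff_iff, orA_iff F c t hT, orA_iff F c t hT]
  unfold Coded
  refine or_congr ?_ ?_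
  · refine exists_congr (fun n => exists_congr (fun φ => exists_congr (fun v => and_congr_right (fun hb =>
      and_congr_right (fun he => ?_)))))
    refine hT n φ hb v _ _ (fun j hj => h0 j (lt_of_lt_of_le hj (hK _ ?_)))
    refine lt_of_le_of_lt ?_ hmK
    rw [he]
    exact (le_pr _ _).trans (Nat.le_add_left _ _)
  · constructor
    · rintro ⟨j, hj, _⟩
      exfalso
      omega
    · rintro ⟨j, hj, _⟩
      exfalso
      omega

include hT in
theorem orA_ovl (X : ℕ → Bool) (x k K : ℕ) (hx : 1 ≤ x) (hK : ∀ a, 2 ^ a < K → a ≤ x) (Y : List ℕ → Bool) :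
    ∀ m < K, orA F c t (ovl (decB x k) X Y) m = ovl (decO x k) (orA F c t X) Y m := by
  intro m hmK
  rcases Nat.mod_two_eq_zero_or_one m with he | he
  · have h1 : decO x k m = none := by
      unfold decO
      rw [if_neg (by omega)]
    have h2 : ovl (decO x k) (orA F c t X) Y m = orA F c t X m := by
      simp only [ovl, h1]
    rw [h2]
    refine orA_even F c t hT _ X x K hK (fun i hi => ?_) m hmK he
    simp only [ovl, decB_none x k hx i hi]
  · obtain ⟨i, rfl⟩ : ∃ i, m = i + i + 1 := ⟨m / 2, by omega⟩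
    rw [orA_odd F c t hT]
    have h1 : decO x k (i + i + 1) = decB x k i := by
      unfold decO
      rw [if_pos (by omega)]
      congr 1
      omega
    simp only [ovl, h1]
    rw [orA_odd F c t hT]

/-- The formula of level `q`. -/
def hard (ι : Type) (q : ℕ) : Fm ι 1 := oddF (sip ι (2 * q + 1))

theorem hard_bounded (ι : Type) (q : ℕ) : (hard ι q).Bounded := oddF_bounded _ (sip_bounded _ _)

theorem hard_noFn (ι : Type) (q : ℕ) : (hard ι q).NoFn := oddF_noFn _ (sip_noFn _ _)

include hT in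
theorem hard_sat (X : ℕ → Bool) (q x : ℕ) :
    (hard ι q).sat (NStr F (orA F c t X)) ![x] ↔ (sip ι (2 * q + 1)).sat (NStr F X) ![x] := by
  unfold hard
  rw [oddF_sat]
  have e : (fun i => orA F c t X (i + i + 1)) = X := by
    funext i
    exact orA_odd F c t hT X i
  rw [e]

/-- The requirement for the bounded formula `θ` and the bound `s`. -/
def Req (q : ℕ) {m : ℕ} (θ : Fm ι (m + 1)) (s : Tm ι Unit) (N : ℕ) (X : ℕ → Bool) : Prop :=
  ∃ x : ℕ, N < x ∧ ¬ ((hard ι q).sat (NStr F (orA F c t X)) ![x] ↔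
    ∃ w : Fin (m + 1) → ℕ, w (Fin.last m) = x ∧ (∀ i, w i ≤ val F s x) ∧ θ.sat (NStr F (orA F c t X)) w)

include hm hT in
theorem req_open (q : ℕ) {m : ℕ} (θ : Fm ι (m + 1)) (hθ : θ.Bounded) (s : Tm ι Unit) (N : ℕ) :
    IsOpen {X | Req F c t q θ s N X} := by
  refine isOpen_of_stab _ ?_
  rintro X ⟨x, hx, h⟩
  obtain ⟨τ, hτ⟩ := majorant F hm θ hθ (fun _ => s)
  obtain ⟨s₁, hs₁⟩ := stab F (hard ι q) (hard_bounded ι q) ![x]
  refine ⟨s₁ + val F τ x, fun X' hX' => ⟨x, hx, ?_⟩⟩
  have h0 := orA_congr F c t hT X X' (s₁ + val F τ x) hX'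
  have e1 : (hard ι q).sat (NStr F (orA F c t X)) ![x] ↔ (hard ι q).sat (NStr F (orA F c t X')) ![x] :=
    hs₁ _ _ (fun i hi => h0 i (by omega))
  have e2 : ∀ w : Fin (m + 1) → ℕ, (∀ i, w i ≤ val F s x) →
      (θ.sat (NStr F (orA F c t X)) w ↔ θ.sat (NStr F (orA F c t X')) w) := by
    intro w hw
    exact hτ x w hw _ _ (fun i hi => h0 i (by omega))
  rw [← e1]
  intro h3
  apply h
  rw [h3]
  exact exists_congr (fun w => and_congr_right (fun _ => and_congr_right (fun hw => (e2 w hw).symm)))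

open Classical in
include hm hT in
theorem req_dense (hF : Subexp F) (q : ℕ) {m : ℕ} (θ : Fm ι (m + 1)) (hθ : θ.Bounded) (hq : θ.rk ≤ q) (s : Tm ι Unit) (N : ℕ) :
    Dense {X | Req F c t q θ s N X} := by
  refine dense_of_ext _ ?_
  intro X s0
  obtain ⟨τ₂, hτ₂⟩ := majorant F hm θ hθ (fun _ => s)
  obtain ⟨b, τ, hc⟩ := circ F q (xbf θ (fun _ => s)) (xbf_xb θ (Nat.succ_pos _) hθ _) (by rw [xbf_rk]; exact hq)
  obtain ⟨x₀, hx₀⟩ := hF τ₂ 1
  obtain ⟨x₁, hx₁⟩ := growth F hF (Tm.add τ (Tm.add s Tm.one)) (2 * q + 1) 1 (m + 1 + b) b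
  obtain ⟨x, hxN, hxs, hx0, hx1⟩ : ∃ x : ℕ, N < x ∧ s0 < x ∧ x₀ ≤ x ∧ x₁ ≤ x := ⟨N + s0 + x₀ + x₁ + 1, by omega, by omega, by omega, by omega⟩
  have hgrow := hx₁ x hx1
  have hK : ∀ a, 2 ^ a < val F τ₂ x → a ≤ x := by
    intro a ha
    have h1 := hx₀ x hx0
    rw [pow_one] at h1
    refine le_trans ?_ h1
    have h2 : Nat.log 2 (2 ^ a) ≤ Nat.log 2 (val F τ₂ x) := Nat.log_mono_right ha.le
    rwa [Nat.log_pow (by norm_num)] at h2
  set k := 2 * q + 1 with hk
  set W := Nat.log 2 (val F (Tm.add τ (Tm.add s Tm.one)) x) + 1 with hW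
  have hval : val F (Tm.add τ (Tm.add s Tm.one)) x = val F τ x + (val F s x + 1) := rfl
  have hWle : val F τ x + (val F s x + 1) ≤ 2 ^ W := by
    rw [← hval, hW]
    exact (Nat.lt_pow_succ_log_self (by norm_num) _).le
  let A₀ := orA F c t X
  let f : (List ℕ → Bool) → Bool := fun Y => Hier.tr (fun _ => x) (k + 1) Y []
  let g : (List ℕ → Bool) → Bool := fun Y => decide (∃ w : Fin (m + 1) → ℕ, w (Fin.last m) = x ∧ (∀ i, w i ≤ val F s x) ∧
    θ.sat (NStr F (ovl (decO x k) A₀ Y)) w)
  have hg : IsC Set.univ ((m + 1) * W + b * (W + 1)) b (2 * q + 1) g := by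
    refine IsC.exists_or (ι := Fin (m + 1) → Fin (val F s x + 1)) ?_
      (fun j Y => decide ((j (Fin.last m)).val = x ∧ θ.sat (NStr F (ovl (decO x k) A₀ Y)) (fun i => (j i).val))) ?_ ?_
    · rw [Fintype.card_pi, Finset.prod_const, Finset.card_univ, Fintype.card_fin, Fintype.card_fin]
      calc (val F s x + 1) ^ (m + 1) ≤ (2 ^ W) ^ (m + 1) := Nat.pow_le_pow_left (by omega) _
        _ = 2 ^ ((m + 1) * W) := by rw [← pow_mul, mul_comm]
    · intro j
      by_cases hj : (j (Fin.last m)).val = x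
      · have h1 := hc (decO x k) A₀ x W (fun i => (j i).val) hj (by omega)
        refine (h1.congr (fun Y => ?_)).lift
        apply decide_eq_decide.2
        rw [xbf_sat F hm _ x θ (Nat.succ_pos _) hθ]
        · exact ⟨fun h => ⟨hj, h⟩, fun h => h.2⟩
        · intro i hi
          have : i = Fin.last m := by
            ext
            simp only [Fin.val_last]
            omega
          rw [this]
          exact hj
        · intro i
          exact Nat.le_of_lt_succ (j i).isLt
      · refine IsC.congr (IsC.const _ _ _ _ false) (fun Y => ?_)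
        symm
        rw [decide_eq_false_iff_not]
        exact fun h => hj h.1
    · intro Y
      simp only [g, decide_eq_true_eq]
      constructor
      · rintro ⟨w, h1, h2, h3⟩
        exact ⟨fun i => ⟨w i, Nat.lt_succ_of_le (h2 i)⟩, h1, h3⟩
      · rintro ⟨j, h1, h3⟩
        exact ⟨fun i => (j i).val, h1, fun i => Nat.le_of_lt_succ (j i).isLt, h3⟩
  have hfg : ∃ Y, f Y ≠ g Y := by
    by_contra hcon
    push Not at hcon
    have hf : IsC Set.univ (1 * ((m + 1 + b) * (Nat.log 2 (val F (Tm.add τ (Tm.add s Tm.one)) x) + 2) + 3)) b k f := by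
      refine IsC.congr (hg.mono (subset_refl _) ?_ le_rfl) (fun Y => (hcon Y).symm)
      have e : Nat.log 2 (val F (Tm.add τ (Tm.add s Tm.one)) x) + 2 = W + 1 := by omega
      rw [e]
      nlinarith
    refine Hier.LB _ (Nat.log 2 x + 1) x (Nat.lt_pow_succ_log_self (by norm_num) x).le k b (fun _ => x) ?_ hf
    intro i _
    exact ⟨hgrow, le_rfl⟩
  obtain ⟨Y, hY⟩ := hfg
  have hx1' : 1 ≤ x := by omega
  have hov := orA_ovl F c t hT X x k (val F τ₂ x) hx1' hK Y
  refine ⟨ovl (decB x k) X Y, ?_, x, hxN, ?_⟩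
  · intro i hi
    simp only [ovl, decB_none x k hx1' i (by omega)]
  · intro hiff
    apply hY
    rw [Bool.eq_iff_iff]
    have hsip : (hard ι q).sat (NStr F (orA F c t (ovl (decB x k) X Y))) ![x] ↔ f Y = true := by
      rw [hard_sat F c t hT, sip_sat]
      have e : Hier.tr (fun _ => x) (k + 1) (fun l => ovl (decB x k) X Y (codeL x l)) [] = f Y := by
        refine Hier.tr_congr _ x _ _ (k + 1) [] (fun _ _ => le_rfl) (by simp) ?_
        intro v hv hv2
        simp only [ovl]
        rw [decB_code x k v (by simpa using hv) hv2]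
      rw [e]
    rw [← hsip, hiff]
    simp only [g, decide_eq_true_eq]
    refine exists_congr (fun w => and_congr_right (fun _ => and_congr_right (fun hw => ?_)))
    exact hτ₂ x w hw _ _ hov

include hm hT in
theorem exists_generic [Countable ι] (hF : Subexp F) : ∃ X : ℕ → Bool, ∀ (q m : ℕ) (θ : Fm ι (m + 1)), θ.Bounded → θ.rk ≤ q →
    ∀ (s : Tm ι Unit) (N : ℕ), Req F c t q θ s N X := by
  have hcf : ∀ n, Countable (Fm ι n) := fun n => countable_fm ι n
  have hct : Countable (Tm ι Unit) := countable_tm ι Unit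
  have h : ∀ᶠ X in residual (ℕ → Bool), ∀ (q m : ℕ) (θ : Fm ι (m + 1)), (θ.Bounded ∧ θ.rk ≤ q) →
      ∀ (s : Tm ι Unit) (N : ℕ), Req F c t q θ s N X := by
    rw [eventually_countable_forall]
    intro q
    rw [eventually_countable_forall]
    intro m
    rw [eventually_countable_forall]
    intro θ
    by_cases hθ : θ.Bounded ∧ θ.rk ≤ q
    · have h1 : ∀ᶠ X in residual (ℕ → Bool), ∀ (s : Tm ι Unit) (N : ℕ), Req F c t q θ s N X := by
        rw [eventually_countable_forall]
        intro s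
        rw [eventually_countable_forall]
        intro N
        exact residual_of_dense_open (req_open F hm c t hT q θ hθ.1 s N) (req_dense F hm c t hT hF q θ hθ.1 hθ.2 s N)
      exact h1.mono (fun X hX _ => hX)
    · exact Filter.Eventually.of_forall (fun X h => absurd h hθ)
  obtain ⟨X, hX⟩ := (dense_of_mem_residual h).nonempty
  exact ⟨X, fun q m θ h1 h2 => hX q m θ ⟨h1, h2⟩⟩

end

end Pool.Agent.Lib.P28o
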