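import Pool.Agent.Lib.P28o.Diag
import Pool.Agent.Lib.P548a.Ult
import Pool.Agent.Lib.P548a.Los
import Pool.Agent.Lib.P548a.Ax

/-!
# The two worlds
-/

set_option autoImplicit false

namespace Pool.Agent.Lib.P28o

open Pool.Agent.Lib.P548a

variable {ι : Type}

theorem piOne_std (F : ι → ℕ → ℕ) (A : ℕ → Bool) : PiOne F A (NStr F A) := fun _ _ _ h v => h v

theorem coll_std (F : ι → ℕ → ℕ) (A : ℕ → Bool) : Coll (NStr F A) := by
  classical
  intro n φ _ v a h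
  have h' : ∀ y : ℕ, y < a → ∃ z : ℕ, φ.sat (NStr F A) (Fin.cons z (Fin.cons y v : Fin (n + 1) → ℕ) : Fin (n + 2) → ℕ) := h
  let g : ℕ → ℕ := fun y => if hy : y < a then Classical.choose (h' y hy) else 0
  refine ⟨((Finset.range a).sup g + 1 : ℕ), fun y hy => ?_⟩
  have hy' : y < a := hy
  refine ⟨g y, ?_, ?_⟩
  · show g y < (Finset.range a).sup g + 1
    exact Nat.lt_succ_of_le (Finset.le_sup (f := g) (Finset.mem_range.2 hy'))
  · simp only [g]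
    rw [dif_pos hy']
    exact Classical.choose_spec (h' y hy')

theorem le_sumT' (F : ι → ℕ → ℕ) (t : ℕ → Tm ι Unit) (a i j : ℕ) (h : i < j) : val F (t i) a ≤ val F (sumT t j) a :=
  (le_sumT t a i).trans (sumT_mono t a h)

theorem neg_core [Countable ι] (F : ι → ℕ → ℕ) (hm : ∀ i, Monotone (F i)) (A : ℕ → Bool) (φ : Fm ι 1) (hφ : φ.Bounded)
    {m : ℕ} (θ : Fm ι (m + 1)) (hθ : θ.Bounded)
    (hA : ∀ (s : Tm ι Unit) (N : ℕ), ∃ x : ℕ, N < x ∧ ¬ (φ.sat (NStr F A) ![x] ↔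
      ∃ w : Fin (m + 1) → ℕ, w (Fin.last m) = x ∧ (∀ i, w i ≤ val F s x) ∧ θ.sat (NStr F A) w)) :
    ∃ (M : Type) (S : Str ι M), PiOne F A S ∧ IDelta0 S ∧ Coll S ∧
      ∃ x : M, ¬ (φ.sat S ![x] ↔ ∃ w : Fin (m + 1) → M, w (Fin.last m) = x ∧ θ.sat S w) := by
  classical
  by_cases hstd : ∃ x : ℕ, ¬ φ.sat (NStr F A) ![x] ∧ ∃ w : Fin (m + 1) → ℕ, w (Fin.last m) = x ∧ θ.sat (NStr F A) w
  · obtain ⟨x, h1, h2⟩ := hstd
    exact ⟨ℕ, NStr F A, piOne_std F A, idelta0_of_piOne F A _ (piOne_std F A), coll_std F A, x, fun h => h1 (h.2 h2)⟩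
  · push Not at hstd
    have hct : Countable (Tm ι Unit) := countable_tm ι Unit
    have : Nonempty (Tm ι Unit) := ⟨Tm.zero⟩
    obtain ⟨t, ht⟩ := exists_surjective_nat (Tm ι Unit)
    choose x hxN hx using fun j : ℕ => hA (sumT t j) j
    have h1 : ∀ j, φ.sat (NStr F A) ![x j] := by
      intro j
      by_contra h
      apply hx j
      constructor
      · intro h2; exact absurd h2 h
      · rintro ⟨w, hw0, _, hw⟩
        exact absurd hw (hstd (x j) h w hw0)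
    have h2 : ∀ j, ¬ ∃ w : Fin (m + 1) → ℕ, w (Fin.last m) = x j ∧ (∀ i, w i ≤ val F (sumT t j) (x j)) ∧
        θ.sat (NStr F A) w := by
      intro j h
      exact hx j ⟨fun _ => h, fun _ => h1 j⟩
    let U : Ultrafilter ℕ := Filter.hyperfilter ℕ
    have hU : (U : Filter ℕ) ≤ Filter.atTop := by
      rw [← Nat.cofinite_eq_atTop]
      exact Filter.hyperfilter_le_cofinite
    obtain ⟨M, S, μ, hS⟩ := exists_ult F hm A U x
    refine ⟨M, S, piOne hS, idelta0_of_piOne F A S (piOne hS), coll hS hct hU, μ x, ?_⟩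
    intro hiff
    have hv : (![μ x] : Fin 1 → M) = fun i : Fin 1 => μ (fun j => (![x j] : Fin 1 → ℕ) i) := by
      funext i
      rw [Subsingleton.elim i 0]
      rfl
    have hall : φ.sat S ![μ x] := by
      rw [hv, los hS φ hφ (fun j => ![x j]) (fun i => by rw [Subsingleton.elim i 0]; exact bdd_x)]
      exact Filter.Eventually.of_forall (fun j => h1 j)
    obtain ⟨w, hw0, hw⟩ := hiff.1 hall
    obtain ⟨r, hr, rfl⟩ := exists_rep hS w
    rw [los hS θ hθ r hr] at hw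
    have h3 : ∀ᶠ j in (U : Filter ℕ), r j (Fin.last m) = x j := (hS.eq _ _ (hr (Fin.last m)) bdd_x).1 hw0
    have h4 : ∀ᶠ j in (U : Filter ℕ), ∀ i, r j i ≤ val F (sumT t j) (x j) := by
      rw [Filter.eventually_all]
      intro i
      obtain ⟨s, hs⟩ := hr i
      obtain ⟨k, rfl⟩ := ht s
      filter_upwards [hs, hU (Filter.eventually_gt_atTop k)] with j hj1 hj2
      exact hj1.trans (le_sumT' F t (x j) k j hj2)
    have h5 : ∀ᶠ j in (U : Filter ℕ), False := by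
      filter_upwards [h3, h4, hw] with j a b d
      exact h2 j ⟨r j, a, b, d⟩
    exact (Filter.eventually_false_iff_eq_bot.1 h5) |> U.neBot.ne

/-- World A. -/
theorem worldA {ι : Type} [Countable ι] (F : ι → ℕ → ℕ) (hm : ∀ i, Monotone (F i)) (hF : Subexp F) :
    ∃ A : ℕ → Bool,
      (∀ (n : ℕ) (φ : Fm ι n), φ.Bounded → ∃ t : Tm ι (Fin (n + 1)),
        (∀ v : Fin n → ℕ, φ.sat (NStr F A) v ↔ ∃ z : ℕ, (Fm.rel t).sat (NStr F A) (Fin.cons z v : Fin (n + 1) → ℕ)) ∧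
        ∀ E : Fm ι 2, E.Bounded → (∀ x y : ℕ, E.sat (NStr F A) ![x, y] ↔ y = 2 ^ x) →
          ∀ (M : Type) (S : Str ι M), PiOne F A S → (∀ a : M, ∃ b : M, E.sat S ![a, b]) →
            ∀ v : Fin n → M, φ.sat S v ↔ ∃ z : M, (Fm.rel t).sat S (Fin.cons z v : Fin (n + 1) → M)) ∧
      ∀ q : ℕ, ∃ φ : Fm ι 1, φ.Bounded ∧ φ.NoFn ∧ ∀ (m : ℕ) (θ : Fm ι (m + 1)), θ.Bounded → θ.rk ≤ q →
        ∃ (M : Type) (S : Str ι M), PiOne F A S ∧ IDelta0 S ∧ Coll S ∧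
          ∃ x : M, ¬ (φ.sat S ![x] ↔ ∃ w : Fin (m + 1) → M, w (Fin.last m) = x ∧ θ.sat S w) := by
  obtain ⟨c, hc⟩ := exists_code ι
  obtain ⟨t, hT⟩ := exists_maj F hm
  obtain ⟨X, hX⟩ := exists_generic F hm c t hT hF
  refine ⟨orA F c t X, ?_, ?_⟩
  · intro n φ hφ
    refine ⟨plc ι n (c ⟨n, φ⟩), posA_std F c hc t hT X φ hφ, ?_⟩
    intro E hE hE2 M S hS hx v
    exact posA_exp F hm c hc t hT X φ hφ E hE hE2 S hS hx v
  · intro q
    refine ⟨hard ι q, hard_bounded ι q, hard_noFn ι q, fun m θ hθ hq => ?_⟩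
    exact neg_core F hm _ (hard ι q) (hard_bounded ι q) θ hθ (hX q m θ hθ hq)

/-- World B. -/
theorem worldB {ι : Type} [Countable ι] (F : ι → ℕ → ℕ) (hm : ∀ i, Monotone (F i)) :
    ∃ B : ℕ → Bool, ∀ (n : ℕ) (φ : Fm ι n), φ.Bounded → ∃ t : Tm ι (Fin (n + 1)),
      ∀ (M : Type) (S : Str ι M), PiOne F B S →
        ∀ v : Fin n → M, φ.sat S v ↔ ∃ z : M, (Fm.rel t).sat S (Fin.cons z v : Fin (n + 1) → M) := by
  obtain ⟨c, hc⟩ := exists_code ι
  obtain ⟨t, hT⟩ := exists_maj F hm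
  refine ⟨orcl F c (fun p s => val F (t p) s) (fun _ => false), fun n φ hφ => ⟨plc ι n (c ⟨n, φ⟩), ?_⟩⟩
  intro M S hS v
  exact posB F hm c hc t hT (fun _ => false) φ hφ S hS v

end Pool.Agent.Lib.P28o
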