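import Pool.Agent.Lib.P28o.Code

/-!
# The positive statements: every bounded formula is existential
-/

set_option autoImplicit false

namespace Pool.Agent.Lib.P28o

open Pool.Agent.Lib.P548a

variable {ι : Type}

/-- The code of a tuple in a structure. -/
def tupS {M : Type} (S : Str ι M) : {n : ℕ} → (Fin n → M) → M
  | 0, _ => S.zero
  | _ + 1, v => S.pm (v 0) (tupS S (fun i => v i.succ))

theorem tupT_eval {M α : Type} (S : Str ι M) (w : α → M) : ∀ {n : ℕ} (u : Fin n → Tm ι α),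
    (tupT u).eval S w = tupS S (fun i => (u i).eval S w)
  | 0, _ => rfl
  | n + 1, u => by
      show (pairT (u 0) (tupT (fun i => u i.succ))).eval S w = S.pm _ (tupS S _)
      rw [pairT_eval, tupT_eval S w (fun i => u i.succ)]

/-- Twice a term. -/
def dbl {α : Type} (u : Tm ι α) : Tm ι α := Tm.add u u

/-- The term `2⟨⟨c, v⟩, z⟩`, where `z` is variable `0`. -/
def plc (ι : Type) (n c : ℕ) : Tm ι (Fin (n + 1)) :=
  dbl (pairT (pairT (Tm.num c) (tupT (fun i : Fin n => Tm.var i.succ))) (Tm.var 0))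

theorem plc_N (F : ι → ℕ → ℕ) (A : ℕ → Bool) (n c : ℕ) (w : Fin (n + 1) → ℕ) :
    (plc ι n c).eval (NStr F A) w = pr (pr c (tn (fun i => w i.succ))) (w 0) + pr (pr c (tn (fun i => w i.succ))) (w 0) := by
  have h : (pairT (pairT (Tm.num c) (tupT (fun i : Fin n => Tm.var i.succ))) (Tm.var 0) : Tm ι (Fin (n + 1))).eval (NStr F A) w =
      pr (pr c (tn (fun i => w i.succ))) (w 0) := by
    rw [pairT_eval, pairT_eval, Tm.num_eval, NStr_num, tupT_eval_N]
    rfl
  show (pairT (pairT (Tm.num c) (tupT (fun i : Fin n => Tm.var i.succ))) (Tm.var 0) : Tm ι (Fin (n + 1))).eval (NStr F A) w +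
    (pairT (pairT (Tm.num c) (tupT (fun i : Fin n => Tm.var i.succ))) (Tm.var 0) : Tm ι (Fin (n + 1))).eval (NStr F A) w = _
  rw [h]

theorem val_subst (F : ι → ℕ → ℕ) (hm : ∀ i, Monotone (F i)) (A : ℕ → Bool) (t : Tm ι Unit) {α : Type} (u : Tm ι α) (w : α → ℕ) :
    (t.subst (fun _ => u)).eval (NStr F A) w = val F t (u.eval (NStr F A) w) := by
  rw [Tm.eval_subst]
  exact le_antisymm (eval_mono F hm _ _ t _ _ (fun _ => le_rfl)) (eval_mono F hm _ _ t _ _ (fun _ => le_rfl))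

section

variable (F : ι → ℕ → ℕ) (hm : ∀ i, Monotone (F i)) (c : (Σ n, Fm ι n) → ℕ) (hc : Function.Injective c)
  (t : (Σ n, Fm ι n) → Tm ι Unit) (hT : Maj F (fun p s => val F (t p) s)) (X : ℕ → Bool)

include hc hT in
theorem back (loc : (Σ n, Fm ι n) → ℕ → ℕ) (hl : ∀ p s, val F (t p) s ≤ loc p s) {n : ℕ} (φ : Fm ι n) (hφ : φ.Bounded) {M : Type}
    (S : Str ι M) (hS : PiOne F (orcl F c loc X) S) (v : Fin n → M)
    (h : ∃ z : M, (Fm.rel (plc ι n (c ⟨n, φ⟩))).sat S (Fin.cons z v : Fin (n + 1) → M)) : φ.sat S v := by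
  obtain ⟨z, hz⟩ := h
  have h2 := hS (n + 1) ((Fm.rel (plc ι n (c ⟨n, φ⟩))).imp (φ.subst (fun i => Tm.var i.succ)))
    (Fm.bounded_imp _ _ (show (Fm.rel (plc ι n (c ⟨n, φ⟩)) : Fm ι (n + 1)).Bounded from trivial) (Fm.bounded_subst φ hφ _))
    (by
      intro w
      rw [Fm.sat_imp, Fm.sat_subst]
      intro h3
      have h4 : orcl F c loc X ((plc ι n (c ⟨n, φ⟩)).eval (NStr F (orcl F c loc X)) w) = true := h3
      rw [plc_N] at h4
      exact truth F c hc loc _ hT hl X φ _ _ h4) (Fin.cons z v)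
  rw [Fm.sat_imp, Fm.sat_subst] at h2
  exact h2 hz

include hm hc hT in
theorem posA_exp {n : ℕ} (φ : Fm ι n) (hφ : φ.Bounded) (E : Fm ι 2) (hE : E.Bounded)
    (hE2 : ∀ x y : ℕ, E.sat (NStr F (orcl F c (fun p s => 2 ^ val F (t p) s) X)) ![x, y] ↔ y = 2 ^ x) {M : Type}
    (S : Str ι M) (hS : PiOne F (orcl F c (fun p s => 2 ^ val F (t p) s) X) S) (hx : ∀ a : M, ∃ b : M, E.sat S ![a, b])
    (v : Fin n → M) : φ.sat S v ↔ ∃ z : M, (Fm.rel (plc ι n (c ⟨n, φ⟩))).sat S (Fin.cons z v : Fin (n + 1) → M) := by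
  have hl : ∀ (p : (Σ n, Fm ι n)) (s : ℕ), val F (t p) s ≤ 2 ^ val F (t p) s := fun p s => Nat.lt_two_pow_self.le
  constructor
  · intro h1
    let O : ℕ → Bool := orcl F c (fun p s => 2 ^ val F (t p) s) X
    let τ : Tm ι (Fin (n + 1)) := (t ⟨n, φ⟩).subst (fun _ => tupT (fun i : Fin n => Tm.var i.succ))
    have hvec : ∀ {N : Type} (S' : Str ι N) (w : Fin (n + 1) → N),
        (fun i : Fin 2 => ((![τ, Tm.var 0] : Fin 2 → Tm ι (Fin (n + 1))) i).eval S' w) = ![τ.eval S' w, w 0] := by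
      intro N S' w
      funext i
      refine Fin.cases ?_ ?_ i
      · rfl
      · intro i
        rw [Subsingleton.elim i 0]
        rfl
    have h2 := hS (n + 1) ((Fm.and (E.subst ![τ, Tm.var 0]) (φ.subst (fun i => Tm.var i.succ))).imp (Fm.rel (plc ι n (c ⟨n, φ⟩))))
      (Fm.bounded_imp _ _ ⟨Fm.bounded_subst E hE _, Fm.bounded_subst φ hφ _⟩
        (show (Fm.rel (plc ι n (c ⟨n, φ⟩)) : Fm ι (n + 1)).Bounded from trivial))
      (by
        intro w
        rw [Fm.sat_imp]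
        rintro ⟨h3, h4⟩
        rw [Fm.sat_subst, hvec, hE2] at h3
        rw [Fm.sat_subst] at h4
        show O ((plc ι n (c ⟨n, φ⟩)).eval (NStr F O) w) = true
        rw [plc_N, h3]
        have h5 := truth' F c (fun p s => 2 ^ val F (t p) s) _ hT hl X φ hφ (fun i => w i.succ) h4
        have h6 : τ.eval (NStr F O) w = val F (t ⟨n, φ⟩) (tn (fun i => w i.succ)) := by
          show ((t ⟨n, φ⟩).subst (fun _ => tupT (fun i : Fin n => Tm.var i.succ))).eval (NStr F O) w = _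
          rw [val_subst F hm, tupT_eval_N]
          rfl
        rw [h6]
        exact h5)
    obtain ⟨b, hb⟩ := hx (((t ⟨n, φ⟩).subst (fun _ => tupT (fun i : Fin n => Tm.var i)) : Tm ι (Fin n)).eval S v)
    refine ⟨b, ?_⟩
    have h3 := h2 (Fin.cons b v)
    rw [Fm.sat_imp] at h3
    refine h3 ⟨?_, ?_⟩
    · rw [Fm.sat_subst, hvec]
      have h4 : τ.eval S (Fin.cons b v : Fin (n + 1) → M) =
          ((t ⟨n, φ⟩).subst (fun _ => tupT (fun i : Fin n => Tm.var i)) : Tm ι (Fin n)).eval S v := by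
        show ((t ⟨n, φ⟩).subst (fun _ => tupT (fun i : Fin n => Tm.var i.succ))).eval S (Fin.cons b v : Fin (n + 1) → M) = _
        rw [Tm.eval_subst, Tm.eval_subst, tupT_eval, tupT_eval]
        rfl
      rw [h4]
      exact hb
    · rw [Fm.sat_subst]
      exact h1
  · exact back F c hc t hT X _ hl φ hφ S hS v

include hc hT in
theorem posA_std {n : ℕ} (φ : Fm ι n) (hφ : φ.Bounded) (v : Fin n → ℕ) :
    φ.sat (NStr F (orcl F c (fun p s => 2 ^ val F (t p) s) X)) v ↔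
      ∃ z : ℕ, (Fm.rel (plc ι n (c ⟨n, φ⟩))).sat (NStr F (orcl F c (fun p s => 2 ^ val F (t p) s) X))
        (Fin.cons z v : Fin (n + 1) → ℕ) := by
  have hl : ∀ (p : (Σ n, Fm ι n)) (s : ℕ), val F (t p) s ≤ 2 ^ val F (t p) s := fun p s => Nat.lt_two_pow_self.le
  constructor
  · intro h
    refine ⟨2 ^ val F (t ⟨n, φ⟩) (tn v), ?_⟩
    show orcl F c (fun p s => 2 ^ val F (t p) s) X ((plc ι n (c ⟨n, φ⟩)).eval (NStr F _) _) = true
    rw [plc_N]
    exact truth' F c (fun p s => 2 ^ val F (t p) s) _ hT hl X φ hφ v h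
  · exact back F c hc t hT X _ hl φ hφ _ (fun n θ _ h v => h v) v

include hm hc hT in
theorem posB {n : ℕ} (φ : Fm ι n) (hφ : φ.Bounded) {M : Type}
    (S : Str ι M) (hS : PiOne F (orcl F c (fun p s => val F (t p) s) X) S)
    (v : Fin n → M) : φ.sat S v ↔ ∃ z : M, (Fm.rel (plc ι n (c ⟨n, φ⟩))).sat S (Fin.cons z v : Fin (n + 1) → M) := by
  have hl : ∀ (p : (Σ n, Fm ι n)) (s : ℕ), val F (t p) s ≤ val F (t p) s := fun p s => le_rfl
  constructor
  · intro h1
    let O : ℕ → Bool := orcl F c (fun p s => val F (t p) s) X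
    let τ : Tm ι (Fin n) := (t ⟨n, φ⟩).subst (fun _ => tupT (fun i : Fin n => Tm.var i))
    have h2 := hS n (φ.imp (Fm.rel (dbl (pairT (pairT (Tm.num (c ⟨n, φ⟩)) (tupT (fun i : Fin n => Tm.var i))) τ))))
      (Fm.bounded_imp _ _ hφ
        (show (Fm.rel (dbl (pairT (pairT (Tm.num (c ⟨n, φ⟩)) (tupT (fun i : Fin n => Tm.var i))) τ)) : Fm ι n).Bounded from trivial))
      (by
        intro w
        rw [Fm.sat_imp]
        intro h4
        show O ((pairT (pairT (Tm.num (c ⟨n, φ⟩)) (tupT (fun i : Fin n => Tm.var i))) τ).eval (NStr F O) w +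
          (pairT (pairT (Tm.num (c ⟨n, φ⟩)) (tupT (fun i : Fin n => Tm.var i))) τ).eval (NStr F O) w) = true
        have h5 := truth' F c (fun p s => val F (t p) s) _ hT hl X φ hφ w h4
        have h6 : τ.eval (NStr F O) w = val F (t ⟨n, φ⟩) (tn w) := by
          show ((t ⟨n, φ⟩).subst (fun _ => tupT (fun i : Fin n => Tm.var i))).eval (NStr F O) w = _
          rw [val_subst F hm, tupT_eval_N]
          rfl
        rw [pairT_eval, pairT_eval, Tm.num_eval, NStr_num, tupT_eval_N, h6]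
        exact h5) v
    rw [Fm.sat_imp] at h2
    refine ⟨τ.eval S v, ?_⟩
    have h3 : S.R ((dbl (pairT (pairT (Tm.num (c ⟨n, φ⟩)) (tupT (fun i : Fin n => Tm.var i))) τ)).eval S v) := h2 h1
    show S.R ((plc ι n (c ⟨n, φ⟩)).eval S (Fin.cons (τ.eval S v) v : Fin (n + 1) → M))
    have h4 : (plc ι n (c ⟨n, φ⟩)).eval S (Fin.cons (τ.eval S v) v : Fin (n + 1) → M) =
        (dbl (pairT (pairT (Tm.num (c ⟨n, φ⟩)) (tupT (fun i : Fin n => Tm.var i))) τ)).eval S v := by
      have h5 : (pairT (pairT (Tm.num (c ⟨n, φ⟩)) (tupT (fun i : Fin n => Tm.var i.succ))) (Tm.var 0) : Tm ι (Fin (n + 1))).eval S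
          (Fin.cons (τ.eval S v) v : Fin (n + 1) → M) =
          (pairT (pairT (Tm.num (c ⟨n, φ⟩)) (tupT (fun i : Fin n => Tm.var i))) τ).eval S v := by
        rw [pairT_eval, pairT_eval, pairT_eval, pairT_eval, Tm.num_eval, Tm.num_eval, tupT_eval, tupT_eval]
        rfl
      show S.add _ _ = S.add _ _
      rw [h5]
    rw [h4]
    exact h3
  · exact back F c hc t hT X _ hl φ hφ S hS v

end

end Pool.Agent.Lib.P28o
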